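import Mathlib
import Pool.Agent.R237.SH.Core

/-!
# Rational functions sharing two nonzero values with `λ w R'` on `ℂ*` (MP_5565ac_an, Q1)

Theorem `result`: if a non-constant rational function `R` and `∂R = λ w R'`, `λ ≠ 0`, share two distinct
values `a, b ≠ 0` in `ℂ*` (ignoring multiplicities), then `R = ∂R`.

Sketch of the proof. Put `S = ∂R`, `T = ∂S` and let `z` be the local coordinate with `w = e^(λz)`. The
functions `φ = T (R - S) / ((S-a)(S-b))` and `ψ = (R - S) / (R - b)` are holomorphic in `ℂ*` off the poles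
of `R`. At a pole of order `m` in `ℂ*` they have simple poles with residues `m + 1` and `m`, and
`ψ (φ - ψ)` has a double pole with residue `2` (with respect to `dz`), for every `m`. At the ends
`w = 0, ∞` the limits are known: `φ → 0` if `R` is finite there, and `φ, ψ → 1 ± λ m` at a pole of order
`m`. By the residue theorem for `φ dz`, `R` has a pole at exactly one of the two ends and
`± 1/λ = N`, the sum of `deg R` and the number `k` of the poles in `ℂ*`. If `R` has at the other end the
value `c ≠ b`, then the residue theorem for `ψ dz` and for `ψ (φ - ψ) dz` gives `ψ = k / N` there and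
`(k / N)^2 = 2 k / N`, so `k = 0`. Then `φ` vanishes identically, and so `R = S`.
-/

set_option autoImplicit false

open Polynomial

namespace Pool.Agent.Results.MP_5565ac_an.SharedValues

/-- The rational function `R` has the finite value `c` at `w`: `w` is not a pole (a zero of the reduced
denominator) and the value of the reduced fraction at `w` is `c`. -/
def HasValue (R : RatFunc ℂ) (w c : ℂ) : Prop :=
  R.denom.eval w ≠ 0 ∧ R.num.eval w / R.denom.eval w = c

/-- The derivative `R'` of a rational function `R` (quotient rule). -/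
noncomputable def deriv (R : RatFunc ℂ) : RatFunc ℂ :=
  algebraMap ℂ[X] (RatFunc ℂ) (derivative R.num * R.denom - R.num * derivative R.denom) /
    (algebraMap ℂ[X] (RatFunc ℂ) R.denom) ^ 2

/-- `∂_z R = λ w R'`. -/
noncomputable def dz (lam : ℂ) (R : RatFunc ℂ) : RatFunc ℂ := RatFunc.C lam * RatFunc.X * deriv R

/-- `R` and `S` share the value `a` in `ℂ*`: they take the value `a` at the same points of `ℂ*`. -/
def ShareValue (R S : RatFunc ℂ) (a : ℂ) : Prop := ∀ w : ℂ, w ≠ 0 → (HasValue R w a ↔ HasValue S w a)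

theorem dz_eq (lam : ℂ) (R : RatFunc ℂ) : dz lam R =
    algebraMap ℂ[X] (RatFunc ℂ) (Pool.Agent.R237.SH.NS lam R.num R.denom) /
      algebraMap ℂ[X] (RatFunc ℂ) (R.denom ^ 2) := by
  simp only [dz, deriv, Pool.Agent.R237.SH.NS, map_mul, map_pow, RatFunc.algebraMap_C,
    RatFunc.algebraMap_X]
  ring

theorem hasValue_dz {lam : ℂ} {R : RatFunc ℂ} {w c : ℂ} (hw : R.denom.eval w ≠ 0) :
    HasValue (dz lam R) w c ↔
      Pool.Agent.R237.SH.Dop lam (Pool.Agent.R237.SH.quo R.num R.denom) w = c := by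
  have hQ2 : R.denom ^ 2 ≠ 0 := pow_ne_zero _ R.denom_ne_zero
  have h1 : (dz lam R).denom ∣ R.denom ^ 2 := by
    rw [dz_eq]
    exact RatFunc.denom_div_dvd _ _
  have h2 : (dz lam R).denom.eval w ≠ 0 := by
    intro h
    obtain ⟨k, hk⟩ := h1
    have := congrArg (Polynomial.eval w) hk
    rw [eval_mul, h, zero_mul, eval_pow] at this
    exact pow_ne_zero _ hw this
  have h3 : (dz lam R).num * R.denom ^ 2 =
      Pool.Agent.R237.SH.NS lam R.num R.denom * (dz lam R).denom :=
    (RatFunc.num_mul_eq_mul_denom_iff hQ2).2 (dz_eq lam R)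
  have h4 := congrArg (Polynomial.eval w) h3
  rw [eval_mul, eval_mul, eval_pow] at h4
  rw [Pool.Agent.R237.SH.Dop_quo hw]
  have h5 : (dz lam R).num.eval w / (dz lam R).denom.eval w =
      (Pool.Agent.R237.SH.NS lam R.num R.denom).eval w / R.denom.eval w ^ 2 := by
    rw [div_eq_div_iff h2 (pow_ne_zero _ hw), h4]
  constructor
  · rintro ⟨_, h⟩
    rw [← h5, h]
  · intro h
    exact ⟨h2, by rw [h5, h]⟩

/-- Let `λ ≠ 0` and let `R` be a non-constant rational function. If `R` and `∂_z R = λ w R'` share two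
distinct values `a, b ∈ ℂ \ {0}` in `ℂ*`, then `R = ∂_z R`. -/
theorem result (lam : ℂ) (hlam : lam ≠ 0) (R : RatFunc ℂ) (hR : ∀ c : ℂ, R ≠ RatFunc.C c)
    (a b : ℂ) (ha : a ≠ 0) (hb : b ≠ 0) (hab : a ≠ b)
    (h1 : ShareValue R (dz lam R) a) (h2 : ShareValue R (dz lam R) b) : R = dz lam R := by
  have sh : ∀ c : ℂ, ShareValue R (dz lam R) c → ∀ w, w ≠ 0 → R.denom.eval w ≠ 0 →
      (Pool.Agent.R237.SH.quo R.num R.denom w = c ↔
        Pool.Agent.R237.SH.Dop lam (Pool.Agent.R237.SH.quo R.num R.denom) w = c) := by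
    intro c hc w hw hQ
    rw [← hasValue_dz hQ, ← hc w hw]
    exact ⟨fun h => ⟨hQ, h⟩, fun h => h.2⟩
  have hnc : ¬ (R.num.natDegree = 0 ∧ R.denom.natDegree = 0) := by
    rintro ⟨e1, e2⟩
    rw [natDegree_eq_zero] at e1 e2
    obtain ⟨x, hx⟩ := e1
    obtain ⟨y, hy⟩ := e2
    refine hR (x / y) ?_
    rw [← RatFunc.num_div_denom R, ← hx, ← hy, RatFunc.algebraMap_C, RatFunc.algebraMap_C, map_div₀]
  have key := Pool.Agent.R237.SH.core (RatFunc.isCoprime_num_denom R) R.denom_ne_zero hlam hab ha hb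
    hnc (sh a h1) (sh b h2)
  rw [dz_eq, ← key]
  conv_lhs => rw [← RatFunc.num_div_denom R]
  have hd : algebraMap ℂ[X] (RatFunc ℂ) R.denom ≠ 0 :=
    RatFunc.algebraMap_ne_zero R.denom_ne_zero
  rw [map_mul, map_pow]
  field_simp

end Pool.Agent.Results.MP_5565ac_an.SharedValues
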